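import Mathlib
import Pool.Agent.Helper69.ST.GoalsR
import Pool.Agent.Helper45.Stek.FM

/-! Packet FS: monotonicity of the Steklov bounds when boundary curves are removed. -/

open MeasureTheory Set Complex Metric
open scoped ContDiff Topology ENNReal

namespace Pool.Agent.Helper78.ST.FS

open Pool.Agent.Helper45.Stek

theorem bdry_mono {Ω Ω' : Set ℂ} (h : LipDomain Ω) (hs : frontier Ω' ⊆ frontier Ω)
    {u : ℂ → ℂ} (hu : Continuous u) : bdry Ω' u ≤ bdry Ω u := by
  unfold bdry
  have hfin := fm Ω h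
  have hK : IsCompact (frontier Ω) :=
    isCompact_of_isClosed_isBounded isClosed_frontier (h.bdd.closure.subset frontier_subset_closure)
  have hc : ContinuousOn (fun z => ‖u z‖ ^ 2) (frontier Ω) := (hu.norm.pow 2).continuousOn
  haveI : IsFiniteMeasure ((Measure.hausdorffMeasure 1 : Measure ℂ).restrict (frontier Ω)) :=
    ⟨by simpa using hfin⟩
  obtain ⟨C, hC⟩ := hK.exists_bound_of_continuousOn hc
  have hi : IntegrableOn (fun z => ‖u z‖ ^ 2) (frontier Ω) (Measure.hausdorffMeasure 1) := by
    refine Measure.integrableOn_of_bounded hfin.ne ((hu.norm.pow 2).aestronglyMeasurable) (M := C) ?_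
    exact (ae_restrict_iff' isClosed_frontier.measurableSet).mpr (ae_of_all _ fun z hz => hC z hz)
  refine setIntegral_mono_set hi ?_ (HasSubset.Subset.eventuallyLE hs)
  exact ae_of_all _ fun z => by positivity

theorem energy_mono {Ω Ω' : Set ℂ} (h : LipDomain Ω') (hs : Ω ⊆ Ω')
    {u : ℂ → ℂ} (hu : ContDiff ℝ ∞ u) : energy Ω u ≤ energy Ω' u := by
  unfold energy
  have hd : Continuous (fderiv ℝ u) := hu.continuous_fderiv (by simp)
  have hc : Continuous (fun z => ‖fderiv ℝ u z 1‖ ^ 2 + ‖fderiv ℝ u z I‖ ^ 2) := by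
    have h1 : Continuous (fun z => fderiv ℝ u z 1) := hd.clm_apply continuous_const
    have h2 : Continuous (fun z => fderiv ℝ u z I) := hd.clm_apply continuous_const
    exact (h1.norm.pow 2).add (h2.norm.pow 2)
  have hK : IsCompact (closure Ω') := h.bdd.isCompact_closure
  have hi : IntegrableOn (fun z => ‖fderiv ℝ u z 1‖ ^ 2 + ‖fderiv ℝ u z I‖ ^ 2) Ω' volume :=
    (hc.continuousOn.integrableOn_compact hK).mono_set subset_closure
  refine setIntegral_mono_set hi ?_ (HasSubset.Subset.eventuallyLE hs)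
  exact ae_of_all _ fun z => by positivity

theorem t : Pool.Agent.Helper69.ST.S_FS := by
  intro k Ω Ω' h h' hs hf
  constructor
  · rintro l ⟨hl, u, hu, hb⟩
    refine ⟨hl, u, hu, fun c hc => ?_⟩
    obtain ⟨h1, h2⟩ := hb c hc
    have hsm : ContDiff ℝ ∞ (fun z => ∑ i, c i * u i z) := by
      refine ContDiff.sum fun i _ => ?_
      exact contDiff_const.mul (hu i)
    have hbm := bdry_mono h hf hsm.continuous
    have hem := energy_mono h' hs hsm
    refine ⟨lt_of_lt_of_le h1 hbm, ?_⟩
    calc _ ≤ _ := hem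
      _ ≤ _ := h2
      _ ≤ _ := mul_le_mul_of_nonneg_left hbm hl
  · unfold area
    refine ENNReal.toReal_mono ?_ (measure_mono hs)
    exact h'.bdd.measure_lt_top.ne

end Pool.Agent.Helper78.ST.FS
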